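import Pool.Agent.H427.KA.Def
import Pool.Agent.H427.PC.Pen

/-!
Averages over all the Kummer extensions of the rational function field.
-/

set_option autoImplicit false
set_option linter.all false
set_option maxHeartbeats 1000000

open Polynomial FF Module NumberField

namespace Pool.Agent.H427.KA

open Pool.Agent.W343.BSD Pool.Agent.W309.RF Pool.Agent.H427.PC Pool.Agent.Y701.QF

variable {k : Type} [Field k] [Finite k]

/-- the places of degree `d` -/
theorem card_places {d : ℕ} (hd : 0 < d) (s : Finset (Place k (RatFunc k)))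
    (hs : ∀ v ∈ s, v ≠ infty k ∧ v.deg = d) : d * s.card ≤ Nat.card k ^ d := by
  classical
  obtain ⟨F, i1, i2, i3, hF⟩ := exists_extension k d hd.ne'
  have hcard : Nat.card F = Nat.card k ^ d := by
    have h2 : Nat.card F = Nat.card k ^ finrank k F := Module.natCard_eq_pow_finrank
    rw [h2, hF]
  have h1 : ∀ v ∈ s, (Finset.univ.filter fun u : F => pl (k := k) (some u) = v).card = d := by
    intro v hv
    have h2 := card_fibre (F := F) v
    rw [(hs v hv).2, hF, if_pos dvd_rfl, Nat.card_eq_fintype_card, Fintype.card_subtype] at h2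
    rw [← h2]
    refine Finset.card_bij (fun u _ => some u) ?_ ?_ ?_
    · intro u hu
      rw [Finset.mem_filter] at hu ⊢
      exact ⟨Finset.mem_univ _, hu.2⟩
    · intro u _ u' _ h
      exact Option.some_injective _ h
    · intro u hu
      rw [Finset.mem_filter] at hu
      cases u with
      | none => exact absurd hu.2.symm (hs v hv).1
      | some u => exact ⟨u, by rw [Finset.mem_filter]; exact ⟨Finset.mem_univ _, hu.2⟩, rfl⟩
  calc d * s.card = ∑ v ∈ s, (Finset.univ.filter fun u : F => pl (k := k) (some u) = v).card := by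
        rw [Finset.sum_congr rfl h1, Finset.sum_const, smul_eq_mul, mul_comm]
  _ = ((Finset.univ : Finset F).filter fun u => pl (k := k) (some u) ∈ s).card := by
        rw [Finset.card_eq_sum_card_fiberwise (f := fun u : F => pl (k := k) (some u)) (t := s)]
        · refine Finset.sum_congr rfl fun v hv => ?_
          congr 1
          ext u
          simp only [Finset.mem_filter, Finset.mem_univ, true_and]
          constructor
          · rintro rfl
            exact ⟨hv, rfl⟩
          · rintro ⟨-, h⟩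
            exact h
        · intro u hu
          rw [Finset.mem_coe, Finset.mem_filter] at hu
          exact hu.2
  _ ≤ (Finset.univ : Finset F).card := Finset.card_filter_le _ _
  _ = Nat.card k ^ d := by rw [Finset.card_univ, ← Nat.card_eq_fintype_card, hcard]

/-- the bound of the local multiplicity -/
theorem multOne_le {ℓ : ℕ} [hℓ : Fact ℓ.Prime] {P : ℤ[X]} (hP : P.coeff 0 = 1) {h : ℕ}
    (hdeg : P.natDegree ≤ h) {d : ℕ} (hd : d ≠ 0) :
    multOne ℓ (P.comp (X ^ d)) ≤ h * ℓ ^ padicValNat ℓ d := by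
  unfold multOne
  have h1 : (P.comp (X ^ d)).map (Int.castRingHom (ZMod ℓ)) =
      (P.map (Int.castRingHom (ZMod ℓ))).comp (X ^ d) := by
    rw [Polynomial.map_comp, Polynomial.map_pow, map_X]
  have h0 : P.map (Int.castRingHom (ZMod ℓ)) ≠ 0 := by
    intro h
    have h1 := congrArg (fun p => Polynomial.coeff p 0) h
    simp only [Polynomial.coeff_map, hP, map_one, Polynomial.coeff_zero] at h1
    exact one_ne_zero h1
  rw [h1, mult_comp h0 hd]
  refine Nat.mul_le_mul_right _ ?_
  refine le_trans ?_ (le_trans (natDegree_map_le (f := Int.castRingHom (ZMod ℓ)) (p := P)) hdeg)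
  exact (rootMultiplicity_le_iff h0 _ _).2 (fun hdv => by
    have := natDegree_le_of_dvd hdv h0
    rw [natDegree_pow, natDegree_X_sub_C, mul_one] at this
    omega)

/-- the monic polynomials -/
noncomputable def mon (k : Type) [Field k] [Finite k] (n : ℕ) : Finset k[X] :=
  (show ({p : k[X] | p.Monic ∧ p.natDegree = n}).Finite from finite_monic n).toFinset

theorem mem_mon {n : ℕ} {p : k[X]} : p ∈ mon k n ↔ p.Monic ∧ p.natDegree = n := by
  unfold mon
  rw [Set.Finite.mem_toFinset]
  rfl

theorem card_mon (n : ℕ) : (mon k n).card = Nat.card k ^ n := by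
  rw [← card_monic (k := k) n]
  unfold mon
  exact (Set.ncard_eq_toFinset_card _ _).symm

open Classical in
theorem card_zero_le {N n : ℕ} {v : Place k (RatFunc k)} (hv : v ≠ infty k) (hvn : v.deg ≤ n) :
    ((mon k n).filter fun Φ => normValue N v Φ = 0).card ≤ Nat.card k ^ (n - v.deg) := by
  obtain ⟨π, hm, hirr, hord, hnn, hdvd, hdeg⟩ := fin_exists (fin_of_ne hv)
  rw [hdeg] at hvn ⊢
  refine le_trans ?_ (card_monic_dvd hm hvn)
  have hfin : Finite {p : k[X] // (p.Monic ∧ p.natDegree = n) ∧ π ∣ p} := by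
    have := finite_monic (k := k) n
    exact Finite.of_injective (fun p => (⟨p.1, p.2.1⟩ : {p : k[X] // p.Monic ∧ p.natDegree = n}))
      (fun a b h => Subtype.ext (congrArg (fun x => x.1) h))
  have e : ((mon k n).filter fun Φ => normValue N v Φ = 0) =
      (show ({p : k[X] | (p.Monic ∧ p.natDegree = n) ∧ π ∣ p}).Finite from hfin).toFinset := by
    ext Φ
    rw [Finset.mem_filter, mem_mon, Set.Finite.mem_toFinset]
    constructor
    · rintro ⟨h1, h2⟩
      have h0 : Φ ≠ 0 := h1.1.ne_zero
      rw [normValue_eq_zero (fin_of_ne hv) h0] at h2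
      exact ⟨h1, (hdvd Φ h0).1 h2⟩
    · rintro ⟨h1, h2⟩
      have h0 : Φ ≠ 0 := h1.1.ne_zero
      refine ⟨h1, ?_⟩
      rw [normValue_eq_zero (fin_of_ne hv) h0]
      exact (hdvd Φ h0).2 h2
  rw [e]
  exact (Set.ncard_eq_toFinset_card _ _).ge

/-- the places of degree at most `n` -/
noncomputable def plc (k : Type) [Field k] [Finite k] (n : ℕ) : Finset (Place k (RatFunc k)) :=
  (places_fin (k := k) (K := RatFunc k) n).toFinset

theorem mem_plc {n : ℕ} {v : Place k (RatFunc k)} : v ∈ plc k n ↔ v.deg ≤ n := by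
  unfold plc
  rw [Set.Finite.mem_toFinset]
  rfl

open Classical in
theorem sum_mult {ℓ N n h : ℕ} (hn : 1 ≤ n) (m : Place k (RatFunc k) → ℕ)
    (hm : ∀ v, m v ≤ h * ℓ ^ padicValNat ℓ v.deg) :
    ((∑ Φ ∈ mon k n, ∑ v ∈ (plc k n).filter (fun v => normValue N v Φ = 0), m v : ℕ) : ℚ) ≤
      h * (Nat.card k : ℚ) ^ n * (1 + weight ℓ n) := by
  set q := Nat.card k with hq
  have hq0 : 0 < q := Nat.card_pos
  -- exchange the sums
  have h1 : ∑ Φ ∈ mon k n, ∑ v ∈ (plc k n).filter (fun v => normValue N v Φ = 0), m v =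
      ∑ v ∈ plc k n, m v * ((mon k n).filter fun Φ => normValue N v Φ = 0).card := by
    simp only [Finset.sum_filter]
    rw [Finset.sum_comm]
    refine Finset.sum_congr rfl fun v _ => ?_
    rw [← Finset.sum_filter, Finset.sum_const, smul_eq_mul, mul_comm]
  rw [h1]
  have hinf : infty k ∈ plc k n := by
    rw [mem_plc, inf_deg infty_X]
    exact hn
  rw [← Finset.add_sum_erase _ _ hinf]
  have h2 : m (infty k) * ((mon k n).filter fun Φ => normValue N (infty k) Φ = 0).card ≤
      h * q ^ n := by
    refine Nat.mul_le_mul ?_ ?_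
    · refine (hm _).trans ?_
      rw [inf_deg infty_X]
      simp
    · exact (Finset.card_filter_le _ _).trans (card_mon n).le
  have h3 : ∀ v ∈ (plc k n).erase (infty k),
      ((m v * ((mon k n).filter fun Φ => normValue N v Φ = 0).card : ℕ) : ℚ) ≤
        h * (q : ℚ) ^ n * (((ℓ ^ padicValNat ℓ v.deg : ℕ) : ℚ) / (q : ℚ) ^ v.deg) := by
    intro v hv
    rw [Finset.mem_erase, mem_plc] at hv
    have h4 := card_zero_le (N := N) hv.1 hv.2
    have h5 : ((m v * ((mon k n).filter fun Φ => normValue N v Φ = 0).card : ℕ) : ℚ) ≤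
        ((h * ℓ ^ padicValNat ℓ v.deg * q ^ (n - v.deg) : ℕ) : ℚ) := by
      exact_mod_cast Nat.mul_le_mul (hm v) h4
    refine h5.trans (le_of_eq ?_)
    push_cast
    have h6 : (q : ℚ) ^ (n - v.deg) = (q : ℚ) ^ n / (q : ℚ) ^ v.deg := by
      rw [pow_sub₀ _ (by positivity) hv.2]
      rfl
    rw [h6]
    field_simp
  push_cast
  have h4 : ∑ v ∈ (plc k n).erase (infty k),
      ((m v : ℚ) * (((mon k n).filter fun Φ => normValue N v Φ = 0).card : ℚ)) ≤
        h * (q : ℚ) ^ n * weight ℓ n := by
    have h5 : ∑ v ∈ (plc k n).erase (infty k),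
        ((m v : ℚ) * (((mon k n).filter fun Φ => normValue N v Φ = 0).card : ℚ)) ≤
        ∑ v ∈ (plc k n).erase (infty k),
          h * (q : ℚ) ^ n * (((ℓ ^ padicValNat ℓ v.deg : ℕ) : ℚ) / (q : ℚ) ^ v.deg) := by
      refine Finset.sum_le_sum fun v hv => ?_
      have := h3 v hv
      push_cast at this
      exact_mod_cast this
    refine h5.trans ?_
    rw [← Finset.mul_sum]
    refine mul_le_mul_of_nonneg_left ?_ (by positivity)
    rw [← Finset.sum_fiberwise_of_maps_to (s := (plc k n).erase (infty k)) (t := Finset.Icc 1 n)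
      (g := fun v => v.deg)]
    · unfold weight
      refine Finset.sum_le_sum fun d hd => ?_
      rw [Finset.mem_Icc] at hd
      have h6 : ∑ v ∈ ((plc k n).erase (infty k)).filter (fun v => v.deg = d),
          (((ℓ ^ padicValNat ℓ v.deg : ℕ) : ℚ) / (q : ℚ) ^ v.deg) =
          ((((plc k n).erase (infty k)).filter (fun v => v.deg = d)).card : ℚ) *
            (((ℓ ^ padicValNat ℓ d : ℕ) : ℚ) / (q : ℚ) ^ d) := by
        rw [Finset.sum_congr rfl (g := fun _ => (((ℓ ^ padicValNat ℓ d : ℕ) : ℚ) / (q : ℚ) ^ d))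
          (fun v hv => by rw [(Finset.mem_filter.1 hv).2]), Finset.sum_const, nsmul_eq_mul]
      rw [h6]
      have h7 := card_places (k := k) (d := d) (by omega)
        (((plc k n).erase (infty k)).filter (fun v => v.deg = d)) (fun v hv => by
          rw [Finset.mem_filter, Finset.mem_erase] at hv
          exact ⟨hv.1.1, hv.2⟩)
      have h8 : (d : ℚ) * ((((plc k n).erase (infty k)).filter (fun v => v.deg = d)).card : ℚ) ≤
          (q : ℚ) ^ d := by
        exact_mod_cast h7
      have hd0 : (0 : ℚ) < d := by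
        have : 0 < d := by omega
        exact_mod_cast this
      rw [mul_div_assoc', div_le_div_iff₀ (by positivity) hd0]
      have h9 : (0 : ℚ) ≤ ((ℓ ^ padicValNat ℓ d : ℕ) : ℚ) := by positivity
      nlinarith
    · intro v hv
      rw [Finset.mem_erase, mem_plc] at hv
      rw [Finset.mem_Icc]
      exact ⟨deg_pos' v, hv.2⟩
  have h5 : (m (infty k) : ℚ) *
      (((mon k n).filter fun Φ => normValue N (infty k) Φ = 0).card : ℚ) ≤ h * (q : ℚ) ^ n := by
    exact_mod_cast h2
  linarith

end Pool.Agent.H427.KA
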