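import Mathlib

/-!
Multiplicities modulo `ℓ` and counts of polynomials.
-/

set_option autoImplicit false
set_option linter.all false
set_option maxHeartbeats 1000000

open Polynomial

namespace Pool.Agent.H427.KA

variable {ℓ : ℕ} [hℓ : Fact ℓ.Prime]

theorem mult_X_pow_sub_one {d : ℕ} (hd : d ≠ 0) :
    ((X : (ZMod ℓ)[X]) ^ d - 1).rootMultiplicity 1 = ℓ ^ padicValNat ℓ d := by
  obtain ⟨e, m, hm, rfl⟩ := Nat.exists_eq_pow_mul_and_not_dvd hd ℓ hℓ.out.ne_one
  have hm0 : m ≠ 0 := by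
    rintro rfl
    exact hm (dvd_zero _)
  have h1 : padicValNat ℓ (ℓ ^ e * m) = e := by
    rw [padicValNat.mul (pow_ne_zero _ hℓ.out.ne_zero) hm0, padicValNat.prime_pow,
      padicValNat.eq_zero_of_not_dvd hm, add_zero]
  have h2 : ((X : (ZMod ℓ)[X]) ^ (ℓ ^ e * m) - 1) = (X ^ m - 1) ^ (ℓ ^ e) := by
    rw [sub_pow_char_pow, one_pow, ← pow_mul, mul_comm m]
  have h3 : ((X : (ZMod ℓ)[X]) ^ m - 1) = (X - C 1) * ∑ i ∈ Finset.range m, X ^ i := by
    have := mul_geom_sum (X : (ZMod ℓ)[X]) m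
    rw [C_1]
    exact this.symm
  have hG : (∑ i ∈ Finset.range m, (X : (ZMod ℓ)[X]) ^ i).eval 1 ≠ 0 := by
    rw [eval_finset_sum]
    simp only [eval_pow, eval_X, one_pow, Finset.sum_const, Finset.card_range, nsmul_eq_mul,
      mul_one]
    rw [Ne, ZMod.natCast_eq_zero_iff]
    exact hm
  have hG0 : (∑ i ∈ Finset.range m, (X : (ZMod ℓ)[X]) ^ i) ≠ 0 := by
    intro h0
    rw [h0, eval_zero] at hG
    exact hG rfl
  have h4 : ((X : (ZMod ℓ)[X]) ^ m - 1).rootMultiplicity 1 = 1 := by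
    rw [h3, rootMultiplicity_mul (mul_ne_zero (X_sub_C_ne_zero 1) hG0),
      rootMultiplicity_X_sub_C_self, rootMultiplicity_eq_zero hG]
  have h5 : ((X : (ZMod ℓ)[X]) ^ m - 1) ≠ 0 := by
    rw [h3]
    exact mul_ne_zero (X_sub_C_ne_zero 1) hG0
  rw [h1, h2]
  have h6 : ∀ j : ℕ, (((X : (ZMod ℓ)[X]) ^ m - 1) ^ j).rootMultiplicity 1 = j := by
    intro j
    induction j with
    | zero =>
      rw [pow_zero]
      apply rootMultiplicity_eq_zero
      simp [IsRoot]
    | succ j ih =>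
      rw [pow_succ, rootMultiplicity_mul (mul_ne_zero (pow_ne_zero _ h5) h5), ih, h4]
  exact h6 _

/-- the multiplicity of the zero one of `Q(X ^ d)` -/
theorem mult_comp {Q : (ZMod ℓ)[X]} (hQ : Q ≠ 0) {d : ℕ} (hd : d ≠ 0) :
    (Q.comp (X ^ d)).rootMultiplicity 1 = Q.rootMultiplicity 1 * ℓ ^ padicValNat ℓ d := by
  set e := Q.rootMultiplicity 1 with he
  obtain ⟨H, hH, hH1⟩ := Polynomial.exists_eq_pow_rootMultiplicity_mul_and_not_dvd Q hQ 1
  have hHne : H ≠ 0 := by
    rintro rfl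
    exact hH1 (dvd_zero _)
  have hHe : H.eval 1 ≠ 0 := by
    intro h0
    exact hH1 (dvd_iff_isRoot.2 h0)
  have h1 : Q.comp (X ^ d) = (X ^ d - 1) ^ e * H.comp (X ^ d) := by
    conv_lhs => rw [hH]
    rw [mul_comp, pow_comp, sub_comp, X_comp, C_comp, C_1]
  have h2 : (H.comp (X ^ d)).eval 1 ≠ 0 := by
    rw [eval_comp]
    simpa using hHe
  have h3 : H.comp (X ^ d) ≠ 0 := by
    intro h0
    rw [h0, eval_zero] at h2
    exact h2 rfl
  have h5 : ((X : (ZMod ℓ)[X]) ^ d - 1) ≠ 0 := by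
    intro h0
    have h6 := mult_X_pow_sub_one (ℓ := ℓ) hd
    rw [h0, rootMultiplicity_zero] at h6
    exact (pow_ne_zero _ hℓ.out.ne_zero) h6.symm
  have h6 : ∀ j : ℕ, (((X : (ZMod ℓ)[X]) ^ d - 1) ^ j).rootMultiplicity 1 =
      j * ℓ ^ padicValNat ℓ d := by
    intro j
    induction j with
    | zero =>
      rw [pow_zero, zero_mul]
      apply rootMultiplicity_eq_zero
      simp [IsRoot]
    | succ j ih =>
      rw [pow_succ, rootMultiplicity_mul (mul_ne_zero (pow_ne_zero _ h5) h5), ih,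
        mult_X_pow_sub_one hd]
      ring
  rw [h1, rootMultiplicity_mul (mul_ne_zero (pow_ne_zero _ h5) h3), h6,
    rootMultiplicity_eq_zero h2, add_zero]

section count

variable {k : Type} [Field k] [Finite k]

theorem card_monic (n : ℕ) : Nat.card {p : k[X] // p.Monic ∧ p.natDegree = n} = Nat.card k ^ n := by
  rw [Nat.card_congr ((monicEquivDegreeLT n).trans (degreeLTEquiv k n).toEquiv), Nat.card_fun,
    Nat.card_fin]

instance finite_monic (n : ℕ) : Finite {p : k[X] // p.Monic ∧ p.natDegree = n} :=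
  Finite.of_equiv _ ((monicEquivDegreeLT n).trans (degreeLTEquiv k n).toEquiv).symm

theorem card_monic_dvd {π : k[X]} (hπ : π.Monic) {n : ℕ} (h : π.natDegree ≤ n) :
    Nat.card {p : k[X] // (p.Monic ∧ p.natDegree = n) ∧ π ∣ p} ≤
      Nat.card k ^ (n - π.natDegree) := by
  rw [← card_monic (k := k) (n - π.natDegree)]
  refine Nat.card_le_card_of_injective (fun p => ⟨p.2.2.choose, ?_⟩) ?_
  · have h1 := p.2.2.choose_spec
    have h2 : (p.2.2.choose).Monic := hπ.of_mul_monic_left (by rw [← h1]; exact p.2.1.1)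
    refine ⟨h2, ?_⟩
    have h3 := p.2.1.2
    rw [h1, hπ.natDegree_mul h2] at h3
    omega
  · intro p p' hpp
    have h1 := p.2.2.choose_spec
    have h2 := p'.2.2.choose_spec
    have h3 := congrArg Subtype.val hpp
    apply Subtype.ext
    rw [h1, h2]
    exact congrArg _ h3

end count

end Pool.Agent.H427.KA
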