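import Pool.Agent.H427.PC.Pts
import Pool.Agent.H427.KA.Mult
import Pool.Graph.R_seed8.W343.BSD.Stmt
import Pool.Graph.R_pool_sql_team_seeded_64922ed1.H313.CC.Curve

/-!
Euler products over the places of the rational function field, twisted by Kummer characters.
-/

set_option autoImplicit false
set_option linter.all false
set_option maxHeartbeats 1000000

open Polynomial FF Module

namespace Pool.Agent.H427.KA

open Pool.Agent.W343.BSD Pool.Agent.W309.RF

variable {k : Type} [Field k]

theorem resConst_one {k K : Type} [Field k] [Field K] [Algebra k K] (v : Place k K) :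
    S.red v (algebraMap k K 1) = 1 := v.constHom.map_one

theorem resConst_zero {k K : Type} [Field k] [Field K] [Algebra k K] (v : Place k K) :
    S.red v (algebraMap k K 0) = 0 := v.constHom.map_zero

theorem resConst_mul {k K : Type} [Field k] [Field K] [Algebra k K] (v : Place k K) (a b : k) :
    S.red v (algebraMap k K (a * b)) = S.red v (algebraMap k K a) * S.red v (algebraMap k K b) :=
  v.constHom.map_mul a b

theorem resConst_add {k K : Type} [Field k] [Field K] [Algebra k K] (v : Place k K) (a b : k) :
    S.red v (algebraMap k K (a + b)) = S.red v (algebraMap k K a) + S.red v (algebraMap k K b) :=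
  v.constHom.map_add a b

/-- The inclusion of the constants in the residue field of a place. -/
noncomputable def resConst {k K : Type} [Field k] [Field K] [Algebra k K] (v : Place k K) :
    k →+* S.Res v where
  toFun c := S.red v (algebraMap k K c)
  map_one' := resConst_one v
  map_mul' := resConst_mul v
  map_zero' := resConst_zero v
  map_add' := resConst_add v

/-- The norm to `k` of the residue class of `f` at the place `v`. -/
noncomputable def placeNorm {k K : Type} [Field k] [Field K] [Algebra k K] (v : Place k K) (f : K) :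
    k :=
  @Algebra.norm k (S.Res v) _ _ (resConst v).toAlgebra (S.red v f)

theorem placeNorm_eq {k K : Type} [Field k] [Field K] [Algebra k K] (v : Place k K) (f : K) :
    placeNorm v f = Algebra.norm k (v.red f) := rfl

/-- The norm to `k` of the value of the polynomial `Ψ` at the place `v` of `k(t)`. At the place at
infinity it is the leading coefficient if `N` divides the degree of `Ψ` and zero otherwise. -/
noncomputable def normValue (N : ℕ) (v : Place k (RatFunc k)) (Ψ : k[X]) : k :=
  if v.ord RatFunc.X < 0 then (if N ∣ Ψ.natDegree then Ψ.leadingCoeff else 0)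
  else placeNorm v (algebraMap k[X] (RatFunc k) Ψ)

/-- The power series `P(a T ^ d)`. -/
noncomputable def factor {A : Type} [CommRing A] (P : ℤ[X]) (a : A) (d : ℕ) : PowerSeries A :=
  (((P.map (algebraMap ℤ A)).comp (C a * X ^ d) : A[X]) : PowerSeries A)

/-- The product over all places of the `L_v(T ^ (deg v))`, the inverse of the `L`-function. -/
noncomputable def inverseLFunction (L : Place k (RatFunc k) → ℤ[X]) : PowerSeries ℤ :=
  eulerProd (fun v : Place k (RatFunc k) => S.deg v) (fun v => factor (L v) 1 (S.deg v))

/-- The product over the places `v` of the factors `L_v(ψ(N Ψ(v)) T ^ (deg v))`, where `N Ψ(v)` is the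
norm to `k` of the value of `Ψ` at `v`, and `ψ(0) = 0`. -/
noncomputable def charProduct {A : Type} [CommRing A] (L : Place k (RatFunc k) → ℤ[X]) (N : ℕ)
    (Ψ : k[X]) (ψ : MulChar k A) : PowerSeries A :=
  eulerProd (fun v : Place k (RatFunc k) => S.deg v)
    (fun v => factor (L v) (ψ (normValue N v Ψ)) (S.deg v))

/-- `P` is the inverse of the product of the products `charProduct` for the characters `χ ^ j`,
`0 < j < N`. -/
def IsCoverPolynomial {A : Type} [CommRing A] (L : Place k (RatFunc k) → ℤ[X]) (χ : MulChar k A)
    (N : ℕ) (Ψ : k[X]) (P : ℤ[X]) : Prop :=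
  (∏ j ∈ Finset.Ico 1 N, charProduct L N Ψ (χ ^ j)) *
    PowerSeries.map (algebraMap ℤ A) (P : PowerSeries ℤ) = 1

/-- The multiplicity of the zero one of the reduction of `P` modulo `ℓ`. -/
noncomputable def multOne (ℓ : ℕ) (P : ℤ[X]) : ℕ :=
  (P.map (Int.castRingHom (ZMod ℓ))).rootMultiplicity 1

/-- The order of the zero of `P` at `T = 1 / q`, where `q` is the number of elements of `k`: the order
of vanishing at `s = 1` of the function `P(q ^ (-s))`. -/
noncomputable def order (k : Type) (P : ℤ[X]) : ℕ :=
  (P.map (Int.castRingHom ℚ)).rootMultiplicity (Nat.card k : ℚ)⁻¹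

/-- The sum of the `ℓ ^ v / d` for `1 ≤ d ≤ n`, where `ℓ ^ v` is the largest power of `ℓ` dividing `d`.
For `n < ℓ` this is the harmonic sum. -/
noncomputable def weight (ℓ n : ℕ) : ℚ :=
  ∑ d ∈ Finset.Icc 1 n, ((ℓ ^ padicValNat ℓ d : ℕ) : ℚ) / d

variable [Finite k]

theorem normValue_C_mul (N : ℕ) (v : Place k (RatFunc k)) {c : k} (hc : c ≠ 0) (Ψ : k[X]) :
    normValue N v (C c * Ψ) = c ^ S.deg v * normValue N v Ψ := by
  unfold normValue
  rw [placeNorm_eq, placeNorm_eq]
  rw [S.deg_eq]
  split_ifs with h1 h2 h3
  · rw [leadingCoeff_mul, leadingCoeff_C, inf_deg h1, pow_one]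
  · rw [natDegree_C_mul hc] at h2
    exact absurd h2 h3
  · rename_i h4
    rw [natDegree_C_mul hc] at h2
    exact absurd h4 h2
  · rw [mul_zero]
  · have h0 : 0 ≤ v.ord RatFunc.X := by omega
    have e1 : algebraMap k[X] (RatFunc k) (C c * Ψ) = algebraMap k (RatFunc k) c * A Ψ := by
      rw [map_mul]
      show A (C c) * A Ψ = _
      rw [A_C]
    rw [e1, v.red_mul (v.reg_const c) (fin_reg h0 Ψ), map_mul]
    congr 1
    have e2 : v.red (algebraMap k (RatFunc k) c) = algebraMap k v.RF c := rfl
    rw [e2, Algebra.norm_algebraMap]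
    rfl

theorem normValue_eq_zero {N : ℕ} {v : Place k (RatFunc k)} (h0 : 0 ≤ v.ord RatFunc.X) {Ψ : k[X]}
    (hΨ : Ψ ≠ 0) : normValue N v Ψ = 0 ↔ 0 < v.ord (A Ψ) := by
  unfold normValue
  rw [placeNorm_eq]
  rw [if_neg (by omega)]
  have hfin : Module.Finite k v.RF := Module.finite_of_finrank_pos (deg_pos' v)
  rw [Algebra.norm_eq_zero_iff, v.red_eq_zero_iff (fin_reg h0 Ψ)]
  constructor
  · rintro (h | h)
    · exact absurd h (A_ne hΨ)
    · exact h
  · exact Or.inr

end Pool.Agent.H427.KA
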