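import Pool.Agent.H427.KA.Avg

/-!
Averages over all the Kummer extensions of the rational function field: the theorem.
-/

set_option autoImplicit false
set_option linter.all false
set_option maxHeartbeats 1000000

open Polynomial FF Module NumberField

namespace Pool.Agent.H427.KA

open Pool.Agent.W343.BSD Pool.Agent.W309.RF Pool.Agent.H427.PC Pool.Agent.Y701.QF
open Pool.Agent.TH639.SG (muL)

variable {k : Type} [Field k] [Finite k]

/-- sums over a family closed under multiplication by constants -/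
theorem sum_family {n : ℕ} (hn : 1 ≤ n) (S : Finset k[X]) (hS : ∀ Ψ ∈ S, Ψ.natDegree = n)
    (hc : ∀ Ψ ∈ S, ∀ c : k, c ≠ 0 → C c * Ψ ∈ S) [DecidablePred fun Ψ : k[X] => Ψ.Monic]
    [Fintype kˣ] (f : k[X] → ℕ) :
    ∑ Ψ ∈ S, f Ψ = ∑ Φ ∈ S.filter (fun Ψ => Ψ.Monic), ∑ c : kˣ, f (C (c : k) * Φ) := by
  classical
  rw [← Finset.sum_product']
  symm
  refine Finset.sum_bij (fun p _ => C (p.2 : k) * p.1) ?_ ?_ ?_ ?_
  · rintro ⟨Φ, c⟩ hp
    rw [Finset.mem_product, Finset.mem_filter] at hp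
    exact hc Φ hp.1.1 c c.ne_zero
  · rintro ⟨Φ, c⟩ hp ⟨Φ', c'⟩ hp' h
    rw [Finset.mem_product, Finset.mem_filter] at hp hp'
    simp only at h hp hp'
    have h1 := congrArg leadingCoeff h
    rw [leadingCoeff_mul, leadingCoeff_C, leadingCoeff_mul, leadingCoeff_C, hp.1.2.leadingCoeff,
      hp'.1.2.leadingCoeff, mul_one, mul_one] at h1
    have h2 : c = c' := Units.ext h1
    subst h2
    have h3 : Φ = Φ' := mul_left_cancel₀ (C_ne_zero.2 c.ne_zero) h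
    rw [h3]
  · intro Ψ hΨ
    have h0 : Ψ ≠ 0 := by
      rintro rfl
      have := hS 0 hΨ
      rw [natDegree_zero] at this
      omega
    have hl : Ψ.leadingCoeff ≠ 0 := leadingCoeff_ne_zero.2 h0
    refine ⟨(C (Ψ.leadingCoeff)⁻¹ * Ψ, Units.mk0 _ hl), ?_, ?_⟩
    · rw [Finset.mem_product, Finset.mem_filter]
      refine ⟨⟨hc Ψ hΨ _ (inv_ne_zero hl), ?_⟩, Finset.mem_univ _⟩
      show (C (Ψ.leadingCoeff)⁻¹ * Ψ).Monic
      rw [Monic, leadingCoeff_mul, leadingCoeff_C, inv_mul_cancel₀ hl]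
    · show C ((Units.mk0 _ hl : kˣ) : k) * (C (Ψ.leadingCoeff)⁻¹ * Ψ) = Ψ
      rw [Units.val_mk0, ← mul_assoc, ← C_mul, mul_inv_cancel₀ hl, C_1, one_mul]
  · rintro ⟨Φ, c⟩ _
    rfl

open Classical in
theorem average {ℓ a : ℕ} (hℓ : ℓ.Prime) (ha : a ≠ 0) (K : Type) [Field K] [NumberField K]
    [IsGalois ℚ K] {χ : MulChar k (𝓞 K)} (hχ : orderOf χ = ℓ ^ a) {h : ℕ}
    {L : Place k (RatFunc k) → ℤ[X]} (hL : ∀ v, (L v).coeff 0 = 1)
    (hdeg : ∀ v, (L v).natDegree ≤ h) {R₁ R₂ : ℤ[X]} (hR₁ : R₁.coeff 0 = 1) (hR₂ : R₂.coeff 0 = 1)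
    (hR : inverseLFunction L * (R₁ : PowerSeries ℤ) = (R₂ : PowerSeries ℤ)) {n : ℕ} (hn : 1 ≤ n)
    (W : Finset k[X]) (hW : ∀ Ψ ∈ W, Ψ.natDegree = n)
    (hc : ∀ Ψ ∈ W, ∀ c : k, c ≠ 0 → C c * Ψ ∈ W)
    (hpoly : ∀ Ψ ∈ W, ∀ j ∈ Finset.Ico 1 (ℓ ^ a), ∃ Q : (𝓞 K)[X],
      charProduct L (ℓ ^ a) Ψ (χ ^ j) * (Q : PowerSeries (𝓞 K)) = 1)
    (P : k[X] → ℤ[X]) (hP : ∀ Ψ ∈ W, IsCoverPolynomial L χ (ℓ ^ a) Ψ (P Ψ)) :
    (((ℓ - 1) * (W.filter fun Ψ => order k (P Ψ) ≠ 0).card : ℕ) : ℚ) ≤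
      W.card * multOne ℓ R₁ +
        (Nat.card k - 1) * (Nat.card k : ℚ) ^ n * (h * (1 + weight ℓ n)) ∧
    ((ℓ * ∑ Ψ ∈ W, order k (P Ψ) : ℕ) : ℚ) ≤
      a * (ℓ - 1) * (W.card * multOne ℓ R₁ +
        (Nat.card k - 1) * (Nat.card k : ℚ) ^ n * (h * (1 + weight ℓ n))) := by
  have : Fact ℓ.Prime := ⟨hℓ⟩
  have hfk : Fintype k := Fintype.ofFinite k
  have hfu : Fintype kˣ := Fintype.ofFinite _
  set q := Nat.card k with hq
  have hq1 : 1 < q := Finite.one_lt_card (α := k)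
  have hku : Nat.card kˣ = q - 1 := by
    rw [Nat.card_units]
  have hkf : Fintype.card kˣ = q - 1 := by
    rw [← Nat.card_eq_fintype_card, hku]
  set M := W.filter (fun Ψ => Ψ.Monic) with hM
  have hMm : M ⊆ mon k n := by
    intro Φ hΦ
    rw [hM, Finset.mem_filter] at hΦ
    rw [mem_mon]
    exact ⟨hΦ.2, hW Φ hΦ.1⟩
  -- the number of the members of the family
  have hcard : W.card = (q - 1) * M.card := by
    have h1 := sum_family hn W hW hc (fun _ => 1)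
    rw [Finset.sum_const, smul_eq_mul, mul_one] at h1
    rw [h1]
    simp only [Finset.sum_const, Finset.card_univ, smul_eq_mul, mul_one]
    rw [hkf, mul_comm]
  -- the local multiplicities
  set m : Place k (RatFunc k) → ℕ := fun v => multOne ℓ ((L v).comp (X ^ S.deg v)) with hm
  have hmb : ∀ v, m v ≤ h * ℓ ^ padicValNat ℓ v.deg := by
    intro v
    have h1 := multOne_le (ℓ := ℓ) (hL v) (hdeg v) (d := S.deg v) (by
      rw [S.deg_eq]; exact (deg_pos' v).ne')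
    rw [hm]
    simp only
    rw [S.deg_eq] at h1 ⊢
    exact h1
  set B : k[X] → Finset (Place k (RatFunc k)) := fun Φ =>
    (plc k n).filter (fun v => normValue (ℓ ^ a) v Φ = 0) with hB
  set μ : k[X] → ℕ := fun Φ => multOne ℓ R₁ + ∑ v ∈ B Φ, m v with hμ
  have hμsum : (((q - 1) * ∑ Φ ∈ M, μ Φ : ℕ) : ℚ) ≤
      W.card * multOne ℓ R₁ + (q - 1) * (q : ℚ) ^ n * (h * (1 + weight ℓ n)) := by
    have h1 := sum_mult (k := k) (ℓ := ℓ) (N := ℓ ^ a) (h := h) hn m hmb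
    have h2 : ∑ Φ ∈ M, ∑ v ∈ B Φ, m v ≤ ∑ Φ ∈ mon k n, ∑ v ∈ B Φ, m v :=
      Finset.sum_le_sum_of_subset hMm
    have h3 : ((∑ Φ ∈ M, ∑ v ∈ B Φ, m v : ℕ) : ℚ) ≤ h * (q : ℚ) ^ n * (1 + weight ℓ n) :=
      le_trans (by exact_mod_cast h2) h1
    have h4 : ((q - 1 : ℕ) : ℚ) = (q : ℚ) - 1 := by
      rw [Nat.cast_sub hq1.le, Nat.cast_one]
    have h5 : (0 : ℚ) ≤ (q : ℚ) - 1 := by
      have : (1 : ℚ) ≤ q := by exact_mod_cast hq1.le
      linarith
    have h6 : ∑ Φ ∈ M, μ Φ = M.card * multOne ℓ R₁ + ∑ Φ ∈ M, ∑ v ∈ B Φ, m v := by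
      rw [hμ]
      simp only
      rw [Finset.sum_add_distrib, Finset.sum_const, smul_eq_mul]
    rw [h6, Nat.cast_mul, Nat.cast_add, hcard, Nat.cast_mul, h4, Nat.cast_mul]
    have h7 := mul_le_mul_of_nonneg_left h3 h5
    try rw [h4]
    linear_combination h7
  have hfin : ∀ N, {v : Place k (RatFunc k) | S.deg v ≤ N}.Finite := by
    intro N
    simp only [S.deg_eq]
    exact places_fin N
  have hpos : ∀ v : Place k (RatFunc k), 0 < S.deg v := by
    intro v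
    rw [S.deg_eq]
    exact deg_pos' v
  -- the theorem for one monic polynomial
  have key : ∀ Φ ∈ M, (ℓ - 1) * (Finset.univ.filter
        (fun c : kˣ => order k (P (C (c : k) * Φ)) ≠ 0)).card ≤ (q - 1) * μ Φ ∧
      ℓ * ∑ c : kˣ, order k (P (C (c : k) * Φ)) ≤ (q - 1) * (a * (ℓ - 1) * μ Φ) := by
    intro Φ hΦ
    rw [hM, Finset.mem_filter] at hΦ
    have hΦ0 : Φ ≠ 0 := hΦ.2.ne_zero
    have hn1 : Φ.natDegree = n := hW Φ hΦ.1
    have hBΦ : ∀ v, v ∈ B Φ ↔ normValue (ℓ ^ a) v Φ = 0 := by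
      intro v
      rw [hB]
      simp only
      rw [Finset.mem_filter, mem_plc]
      constructor
      · exact fun h => h.2
      · intro hv
        refine ⟨?_, hv⟩
        by_cases hinf : v = infty k
        · rw [hinf, inf_deg infty_X]
          exact hn
        · obtain ⟨π, hm', hirr, hord, hnn, hdvd, hdg⟩ := fin_exists (fin_of_ne hinf)
          rw [normValue_eq_zero (fin_of_ne hinf) hΦ0] at hv
          rw [hdg, ← hn1]
          exact natDegree_le_of_dvd ((hdvd Φ hΦ0).1 hv) hΦ0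
    have h1 := Pool.Agent.H313.CC.tower_curve hℓ ha one_pos (Nat.coprime_one_left ℓ) K
      (χ := χ) (by rw [one_mul]; exact hχ)
      (d := fun v : Place k (RatFunc k) => S.deg v) (Pl := L)
      (nv := fun v => normValue (ℓ ^ a) v Φ) hfin hpos hL (B Φ) hBΦ hR₁ hR₂ hR (P := 1)
      (by simp) (by
        rw [one_mul]
        exact hpoly Φ hΦ.1) 1
      (fun c v => normValue (ℓ ^ a) v (C (c : k) * Φ))
      (fun c v => by
        rw [pow_one]
        exact normValue_C_mul _ v c.ne_zero Φ)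
      (fun c => P (C (c : k) * Φ)) (fun c => by
        rw [one_mul]
        exact hP _ (hc Φ hΦ.1 c c.ne_zero))
    obtain ⟨-, ⟨T, hT1, hT2⟩, h3⟩ := h1
    have hord : ∀ Q : ℤ[X], Pool.Agent.H313.CC.ordAt (Nat.card k) 1 Q = order k Q := by
      intro Q
      unfold order Pool.Agent.H313.CC.ordAt
      rw [pow_one]
    have hmu1 : muL ℓ (1 : ℤ[X]) = 0 := by
      unfold Pool.Agent.TH639.SG.muL
      rw [Polynomial.map_one]
      apply rootMultiplicity_eq_zero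
      simp [IsRoot]
    have ho1 : order k (1 : ℤ[X]) = 0 := by
      unfold order
      rw [Polynomial.map_one]
      apply rootMultiplicity_eq_zero
      simp [IsRoot]
    have hμle : muL ℓ R₁ + ∑ z ∈ B Φ, muL ℓ ((L z).comp (X ^ S.deg z)) - muL ℓ R₂ + muL ℓ 1 ≤
        μ Φ := by
      rw [hmu1, add_zero]
      exact Nat.sub_le _ _
    simp only [hord, ho1] at hT2 h3
    rw [← hq] at hT1 h3
    refine ⟨?_, ?_⟩
    · have h4 : (Finset.univ.filter (fun c : kˣ => order k (P (C (c : k) * Φ)) ≠ 0)) ⊆ T := by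
        intro c hcc
        rw [Finset.mem_filter] at hcc
        by_contra hcT
        exact hcc.2 (hT2 c hcT)
      have h5 := Finset.card_le_card h4
      have h6 : (∑ i ∈ Finset.range a, ℓ ^ i) * (ℓ - 1) ≤ ℓ ^ a := by
        have h7 := Nat.geomSum_eq hℓ.two_le a
        have h8 : (ℓ - 1) ∣ (ℓ ^ a - 1) := by
          simpa using Nat.sub_dvd_pow_sub_pow ℓ 1 a
        rw [h7, Nat.div_mul_cancel h8]
        exact Nat.sub_le _ _
      have h9 : ℓ ^ a * ((ℓ - 1) * T.card) ≤ ℓ ^ a * ((q - 1) * μ Φ) := by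
        calc ℓ ^ a * ((ℓ - 1) * T.card) = (ℓ - 1) * (ℓ ^ a * T.card) := by ring
        _ ≤ (ℓ - 1) * ((q - 1) * ((∑ i ∈ Finset.range a, ℓ ^ i) * μ Φ)) := by
            refine Nat.mul_le_mul_left _ (hT1.trans ?_)
            exact Nat.mul_le_mul_left _ (Nat.mul_le_mul_left _ hμle)
        _ = ((∑ i ∈ Finset.range a, ℓ ^ i) * (ℓ - 1)) * ((q - 1) * μ Φ) := by ring
        _ ≤ _ := Nat.mul_le_mul_right _ h6
      have h10 := Nat.le_of_mul_le_mul_left h9 (pow_pos hℓ.pos a)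
      exact (Nat.mul_le_mul_left _ h5).trans h10
    · have h4 : ∑ᶠ c : kˣ, (order k (P (C (c : k) * Φ)) - 0) =
          ∑ c : kˣ, order k (P (C (c : k) * Φ)) := by
        rw [finsum_eq_sum_of_fintype]
        simp
      rw [h4] at h3
      refine h3.trans ?_
      exact Nat.mul_le_mul_left _ (Nat.mul_le_mul_left _ hμle)
  refine ⟨?_, ?_⟩
  · refine le_trans ?_ hμsum
    have h1 : (W.filter fun Ψ => order k (P Ψ) ≠ 0).card =
        ∑ Φ ∈ M, (Finset.univ.filter (fun c : kˣ => order k (P (C (c : k) * Φ)) ≠ 0)).card := by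
      rw [Finset.card_filter, sum_family hn W hW hc]
      refine Finset.sum_congr rfl fun Φ _ => ?_
      rw [Finset.card_filter]
    have h2 : (ℓ - 1) * (W.filter fun Ψ => order k (P Ψ) ≠ 0).card ≤ (q - 1) * ∑ Φ ∈ M, μ Φ := by
      rw [h1, Finset.mul_sum, Finset.mul_sum]
      exact Finset.sum_le_sum fun Φ hΦ => (key Φ hΦ).1
    exact_mod_cast h2
  · have h1 : ℓ * ∑ Ψ ∈ W, order k (P Ψ) ≤ a * (ℓ - 1) * ((q - 1) * ∑ Φ ∈ M, μ Φ) := by
      rw [sum_family hn W hW hc, Finset.mul_sum, Finset.mul_sum, Finset.mul_sum]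
      refine Finset.sum_le_sum fun Φ hΦ => ((key Φ hΦ).2).trans (le_of_eq ?_)
      ring
    have h2 : ((ℓ * ∑ Ψ ∈ W, order k (P Ψ) : ℕ) : ℚ) ≤
        (((a * (ℓ - 1)) * ((q - 1) * ∑ Φ ∈ M, μ Φ) : ℕ) : ℚ) := by exact_mod_cast h1
    refine h2.trans ?_
    rw [Nat.cast_mul, Nat.cast_mul, Nat.cast_sub hℓ.pos, Nat.cast_one]
    refine mul_le_mul_of_nonneg_left hμsum ?_
    have : (1 : ℚ) ≤ ℓ := by exact_mod_cast hℓ.pos
    have h3 : (0 : ℚ) ≤ a := by positivity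
    nlinarith

end Pool.Agent.H427.KA
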